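import Pool.Agent.N139.Fock.Step

set_option autoImplicit false

open Set Metric Filter Topology MeasureTheory

namespace Pool.Agent.N139.Fock

variable {n : ℕ}

/-- shells -/
def shell (n : ℕ) (σ : ℝ) (j : ℕ) : Set (Fin n → ℂ) := {z | σ * j ≤ nsq z ∧ nsq z < σ * (j + 1)}

theorem measurableSet_shell (σ : ℝ) (j : ℕ) : MeasurableSet (shell n σ j) :=
  (measurableSet_le measurable_const measurable_nsq).inter
    (measurableSet_lt measurable_nsq measurable_const)

theorem disjoint_shell {σ : ℝ} (hσ : 1 ≤ σ) {i j : ℕ} (hij : i ≠ j) :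
    Disjoint (shell n σ i) (shell n σ j) := by
  rw [Set.disjoint_left]
  rintro z ⟨h1, h2⟩ ⟨h3, h4⟩
  apply hij
  have h5 : σ * i < σ * (j + 1) := lt_of_le_of_lt h1 h4
  have h6 : σ * j < σ * (i + 1) := lt_of_le_of_lt h3 h2
  have h7 : (i : ℝ) < j + 1 := lt_of_mul_lt_mul_left h5 (by linarith)
  have h8 : (j : ℝ) < i + 1 := lt_of_mul_lt_mul_left h6 (by linarith)
  have h9 : i < j + 1 := by exact_mod_cast h7
  have h10 : j < i + 1 := by exact_mod_cast h8
  omega

theorem nsq_bounded {R : ℝ} (z : Fin n → ℂ) (hz : nsq z ≤ R) : z ∈ closedBall (0 : Fin n → ℂ) (Real.sqrt R) := by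
  rw [mem_closedBall, dist_zero_right, pi_norm_le_iff_of_nonneg (Real.sqrt_nonneg _)]
  intro i
  apply Real.le_sqrt_of_sq_le
  refine le_trans ?_ hz
  unfold nsq
  exact Finset.single_le_sum (f := fun k => ‖z k‖ ^ 2) (fun k _ => by positivity) (Finset.mem_univ i)

theorem lintegral_bounded_lt_top {R : ℝ} {Φ : (Fin n → ℂ) → ENNReal} (hΦ : Continuous Φ)
    (hfin : ∀ z, Φ z ≠ ⊤) {S : Set (Fin n → ℂ)} (hS : ∀ z ∈ S, nsq z ≤ R) :
    ∫⁻ z in S, Φ z < ⊤ := by
  have hK : IsCompact (closedBall (0 : Fin n → ℂ) (Real.sqrt R)) := isCompact_closedBall _ _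
  have hsub : S ⊆ closedBall (0 : Fin n → ℂ) (Real.sqrt R) := fun z hz => nsq_bounded z (hS z hz)
  obtain ⟨z0, hz0, hmax⟩ := hK.exists_isMaxOn
    (nonempty_closedBall.2 (Real.sqrt_nonneg _)) hΦ.continuousOn
  calc ∫⁻ z in S, Φ z ≤ ∫⁻ z in closedBall (0 : Fin n → ℂ) (Real.sqrt R), Φ z :=
        lintegral_mono_set hsub
    _ ≤ ∫⁻ z in closedBall (0 : Fin n → ℂ) (Real.sqrt R), Φ z0 := by
        apply setLIntegral_mono_ae' measurableSet_closedBall
        exact Eventually.of_forall fun z hz => hmax hz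
    _ = Φ z0 * volume (closedBall (0 : Fin n → ℂ) (Real.sqrt R)) := by
        rw [lintegral_const, Measure.restrict_apply MeasurableSet.univ, univ_inter]
    _ < ⊤ := ENNReal.mul_lt_top (hfin z0).lt_top hK.measure_lt_top

/-- summation of the recursion `a_{j+1} ≤ a_j / 2 + e_{j+1}` -/
theorem sum_rec (a e : ℕ → ENNReal) (h : ∀ j, a (j + 1) ≤ 1 / 2 * a j + e (j + 1)) (m : ℕ) :
    ∑ j ∈ Finset.range m, a (j + 1) + a m ≤ a 0 + 2 * ∑ j ∈ Finset.range m, e (j + 1) := by
  induction m with
  | zero => simp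
  | succ m ih =>
    rw [Finset.sum_range_succ, Finset.sum_range_succ]
    have h2 : (2 : ENNReal) * (1 / 2) = 1 := by
      rw [one_div]; exact ENNReal.mul_inv_cancel (by norm_num) (by norm_num)
    calc ∑ j ∈ Finset.range m, a (j + 1) + a (m + 1) + a (m + 1)
        = ∑ j ∈ Finset.range m, a (j + 1) + 2 * a (m + 1) := by ring
      _ ≤ ∑ j ∈ Finset.range m, a (j + 1) + 2 * (1 / 2 * a m + e (m + 1)) := by
          gcongr
          exact h m
      _ = (∑ j ∈ Finset.range m, a (j + 1) + a m) + 2 * e (m + 1) := by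
          rw [mul_add, ← mul_assoc, h2, one_mul]; ring
      _ ≤ (a 0 + 2 * ∑ j ∈ Finset.range m, e (j + 1)) + 2 * e (m + 1) := by gcongr
      _ = _ := by ring

theorem tsum_rec (a e : ℕ → ENNReal) (h : ∀ j, a (j + 1) ≤ 1 / 2 * a j + e (j + 1)) :
    ∑' j, a (j + 1) ≤ a 0 + 2 * ∑' j, e (j + 1) := by
  rw [ENNReal.tsum_eq_iSup_nat]
  apply iSup_le
  intro m
  calc ∑ j ∈ Finset.range m, a (j + 1) ≤ ∑ j ∈ Finset.range m, a (j + 1) + a m := le_self_add
    _ ≤ a 0 + 2 * ∑ j ∈ Finset.range m, e (j + 1) := sum_rec a e h m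
    _ ≤ _ := by
      gcongr
      exact ENNReal.sum_le_tsum _

theorem add_rpow_le {a b p : ℝ} (ha : 0 ≤ a) (hb : 0 ≤ b) (hp : 0 < p) :
    (a + b) ^ p ≤ 2 ^ p * a ^ p + 2 ^ p * b ^ p := by
  rcases le_total a b with h | h
  · calc (a + b) ^ p ≤ (2 * b) ^ p := Real.rpow_le_rpow (by positivity) (by linarith) hp.le
      _ = 2 ^ p * b ^ p := Real.mul_rpow (by norm_num) hb
      _ ≤ _ := le_add_of_nonneg_left (by positivity)
  · calc (a + b) ^ p ≤ (2 * a) ^ p := Real.rpow_le_rpow (by positivity) (by linarith) hp.le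
      _ = 2 ^ p * a ^ p := Real.mul_rpow (by norm_num) ha
      _ ≤ _ := le_add_of_nonneg_right (by positivity)

/-- the contraction factor can be made small -/
theorem exists_sigma (n : ℕ) {α p : ℝ} (hα : 0 < α) (hp : 0 < p) :
    ∃ σ : ℝ, 1 ≤ σ ∧ 2 ^ p * Real.exp (-(α * σ / 2)) ^ p * 2 ^ n ≤ 1 / 2 := by
  have hlim : Tendsto (fun σ : ℝ => 2 ^ p * Real.exp (-(α * p / 2 * σ)) * 2 ^ n) atTop
      (𝓝 (2 ^ p * 0 * 2 ^ n)) := by
    apply Tendsto.mul_const
    apply Tendsto.const_mul
    apply Real.tendsto_exp_neg_atTop_nhds_zero.comp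
    exact Tendsto.const_mul_atTop (by positivity) tendsto_id
  rw [mul_zero, zero_mul] at hlim
  have h1 := (hlim.eventually (gt_mem_nhds (by norm_num : (0 : ℝ) < 1 / 2))).and
    (eventually_ge_atTop (1 : ℝ))
  obtain ⟨σ, h2, h3⟩ := h1.exists
  refine ⟨σ, h3, ?_⟩
  rw [← Real.exp_mul]
  have : -(α * σ / 2) * p = -(α * p / 2 * σ) := by ring
  rw [this]
  exact h2.le

theorem shell_lintegral {α p σ : ℝ} (hp : 0 < p) (hσ : 1 ≤ σ) (k : ℕ)
    {h : (Fin n → ℂ) → ℂ} (hh : Differentiable ℂ h) {j : ℕ} (hj : 2 ≤ j) :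
    ∫⁻ z in shell n σ j, Psi α p k h ((lam j : ℂ) • z) ≤
      ENNReal.ofReal (2 ^ n) * ∫⁻ z in shell n σ (j - 1), Psi α p k h z := by
  obtain ⟨hl1, hl2, hl3, hl4⟩ := lam_facts hj
  have hj' : (2 : ℝ) ≤ j := by exact_mod_cast hj
  have hjpos : (0 : ℝ) < j := by linarith
  have hcast : ((j - 1 : ℕ) : ℝ) = (j : ℝ) - 1 := by
    rw [Nat.cast_sub (by omega)]; simp
  rw [← lintegral_indicator (measurableSet_shell σ j),
    ← lintegral_indicator (measurableSet_shell σ (j - 1))]
  have hne : (lam j : ℂ) ≠ 0 := by exact_mod_cast hl3.ne'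
  have hmeas : Measurable ((shell n σ (j - 1)).indicator (Psi α p k h)) :=
    (measurable_Psi hp k hh.continuous).indicator (measurableSet_shell σ (j - 1))
  calc ∫⁻ z, (shell n σ j).indicator (fun z => Psi α p k h ((lam j : ℂ) • z)) z
      ≤ ∫⁻ z, (shell n σ (j - 1)).indicator (Psi α p k h) ((lam j : ℂ) • z) := by
        apply lintegral_mono
        intro z
        by_cases hz : z ∈ shell n σ j
        · have hz' : (lam j : ℂ) • z ∈ shell n σ (j - 1) := by
            have hnl : nsq ((lam j : ℂ) • z) = nsq z - nsq z / j := by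
              rw [nsq_smul, Complex.norm_real, Real.norm_of_nonneg hl3.le, hl1]
              ring
            have hz1 := hz.1
            have hz2 := hz.2
            have e1 : nsq z - nsq z / j = nsq z * ((j - 1) / j) := by
              field_simp
            have hpos : 0 < ((j : ℝ) - 1) / j := by
              apply div_pos <;> linarith
            refine ⟨?_, ?_⟩
            · rw [hcast, hnl, e1]
              calc σ * ((j : ℝ) - 1) = (σ * j) * ((j - 1) / j) := by field_simp
                _ ≤ nsq z * ((j - 1) / j) := by gcongr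
            · rw [hcast, hnl, e1]
              calc nsq z * ((j - 1) / j) < (σ * (j + 1)) * ((j - 1) / j) := by gcongr
                _ = σ * (j - 1 + 1) - σ / j := by field_simp; ring
                _ < σ * ((j : ℝ) - 1 + 1) := by
                  have : 0 < σ / j := by positivity
                  linarith
          simp only [indicator_of_mem hz, indicator_of_mem hz']
          exact le_rfl
        · simp only [indicator_of_notMem hz]
          exact zero_le
    _ = ENNReal.ofReal ((‖(lam j : ℂ)‖ ^ (2 * n))⁻¹) *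
          ∫⁻ z, (shell n σ (j - 1)).indicator (Psi α p k h) z := lintegral_smul hne hmeas
    _ ≤ _ := by
        apply mul_le_mul_left
        apply ENNReal.ofReal_le_ofReal
        rw [pow_mul, ← inv_pow, Complex.norm_real, Real.norm_of_nonneg hl3.le]
        apply pow_le_pow_left₀ (by positivity)
        rw [inv_le_comm₀ (by positivity) (by norm_num)]
        linarith

/-- backward step, finite `p` -/
theorem backward_lintegral {α p : ℝ} (hα : 0 < α) (hp : 0 < p) (k : ℕ) {h : (Fin n → ℂ) → ℂ}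
    (hh : Differentiable ℂ h) (hfin : ∫⁻ z, Psi α p (k + 1) (radial h) z < ⊤) :
    ∫⁻ z, Psi α p k h z < ⊤ := by
  obtain ⟨σ, hσ, hcon⟩ := exists_sigma n hα hp
  have hRd := differentiable_radial hh
  set κ : ℝ := 2 * (1 + 2 * σ) with hκ
  have hκpos : 0 < κ := by positivity
  set C : ENNReal := ENNReal.ofReal (2 ^ p * (2 * (1 + 2 * σ)) ^ p) * cloc α p κ (k + 1) with hC
  have hCtop : C ≠ ⊤ := by
    rw [hC]; unfold cloc; finiteness
  have hsh : ∀ j : ℕ, 12 ≤ j → ∀ z ∈ shell n σ j, Psi α p k h z ≤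
      ENNReal.ofReal (2 ^ p * Real.exp (-(α * σ / 2)) ^ p) * Psi α p k h ((lam j : ℂ) • z) +
      C * Tav κ (Psi α p (k + 1) (radial h)) z := by
    intro j hj z hz
    obtain ⟨a, ha, hle⟩ := shell_point hα hσ k hh (by omega : 2 ≤ j) hz.1 hz.2
    have hj' : (12 : ℝ) ≤ j := by exact_mod_cast hj
    have hs := nsq_nonneg z
    have hw := wt_pos α k z
    have hw' := wt_pos α k ((lam j : ℂ) • z)
    have hw1 := wt_pos α (k + 1) z
    have hz2 : 2 * κ ≤ 1 + nsq z := by
      have := hz.1
      rw [hκ]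
      nlinarith
    have h1 := local_le hα hp hκpos (k + 1) hRd hz2 (a := a) (by rw [hκ]; linarith)
    have hE := Real.exp_pos (-(α * σ / 2))
    calc Psi α p k h z ≤ ENNReal.ofReal
          (2 ^ p * (Real.exp (-(α * σ / 2)) * (‖h ((lam j : ℂ) • z)‖ * wt α k ((lam j : ℂ) • z))) ^ p +
            2 ^ p * (2 * (1 + 2 * σ) * (‖radial h (a • z)‖ * wt α (k + 1) z)) ^ p) := by
          unfold Psi
          apply ENNReal.ofReal_le_ofReal
          refine le_trans (Real.rpow_le_rpow (by positivity) hle hp.le) ?_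
          exact add_rpow_le (by positivity) (by positivity) hp
      _ = ENNReal.ofReal (2 ^ p * Real.exp (-(α * σ / 2)) ^ p) * Psi α p k h ((lam j : ℂ) • z) +
          ENNReal.ofReal (2 ^ p * (2 * (1 + 2 * σ)) ^ p) *
            ENNReal.ofReal ((‖radial h (a • z)‖ * wt α (k + 1) z) ^ p) := by
          rw [ENNReal.ofReal_add (by positivity) (by positivity)]
          unfold Psi
          rw [← ENNReal.ofReal_mul (by positivity), ← ENNReal.ofReal_mul (by positivity)]
          congr 2
          · rw [Real.mul_rpow hE.le (by positivity), mul_assoc]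
          · rw [Real.mul_rpow (by positivity) (by positivity), mul_assoc]
      _ ≤ _ := by
          rw [hC, mul_assoc]
          gcongr
  -- integrate over the shells
  set a : ℕ → ENNReal := fun i => ∫⁻ z in shell n σ (11 + i), Psi α p k h z with ha
  set e : ℕ → ENNReal := fun i =>
    ∫⁻ z in shell n σ (11 + i), C * Tav κ (Psi α p (k + 1) (radial h)) z with he
  have hTmeas : Measurable (fun z : Fin n → ℂ => Tav κ (Psi α p (k + 1) (radial h)) z) := by
    unfold Tav
    apply Measurable.lintegral_prod_right'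
      (f := fun q : (Fin n → ℂ) × ℂ => kern κ q.2 q.1 * Psi α p (k + 1) (radial h) (q.2 • q.1))
    exact (measurable_kern κ).mul ((measurable_Psi hp (k + 1) hRd.continuous).comp
      (measurable_snd.smul measurable_fst))
  have hrec : ∀ i, a (i + 1) ≤ 1 / 2 * a i + e (i + 1) := by
    intro i
    have hj12 : 12 ≤ 11 + (i + 1) := by omega
    calc a (i + 1) ≤ ∫⁻ z in shell n σ (11 + (i + 1)),
          (ENNReal.ofReal (2 ^ p * Real.exp (-(α * σ / 2)) ^ p) *
            Psi α p k h ((lam (11 + (i + 1)) : ℂ) • z) +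
          C * Tav κ (Psi α p (k + 1) (radial h)) z) := by
          apply setLIntegral_mono_ae' (measurableSet_shell _ _)
          exact Eventually.of_forall fun z hz => hsh _ hj12 z hz
      _ = ENNReal.ofReal (2 ^ p * Real.exp (-(α * σ / 2)) ^ p) *
            (∫⁻ z in shell n σ (11 + (i + 1)), Psi α p k h ((lam (11 + (i + 1)) : ℂ) • z)) +
            e (i + 1) := by
          rw [lintegral_add_right _ (hTmeas.const_mul C), lintegral_const_mul' _ _ ENNReal.ofReal_ne_top]
      _ ≤ ENNReal.ofReal (2 ^ p * Real.exp (-(α * σ / 2)) ^ p) *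
            (ENNReal.ofReal (2 ^ n) * a i) + e (i + 1) := by
          gcongr
          have := shell_lintegral (α := α) hp hσ k hh (j := 11 + (i + 1)) (by omega)
          exact this
      _ ≤ 1 / 2 * a i + e (i + 1) := by
          rw [← mul_assoc, ← ENNReal.ofReal_mul (by positivity)]
          gcongr
          calc ENNReal.ofReal (2 ^ p * Real.exp (-(α * σ / 2)) ^ p * 2 ^ n)
              ≤ ENNReal.ofReal (1 / 2) := ENNReal.ofReal_le_ofReal hcon
            _ = 1 / 2 := by
              rw [ENNReal.ofReal_div_of_pos (by norm_num)]; simp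
  have hsum := tsum_rec a e hrec
  have hsume : ∑' i, e (i + 1) ≤ C * (ENNReal.ofReal (4 ^ n) *
      ENNReal.ofReal (81 * κ ^ 2 * Real.pi) * ∫⁻ z, Psi α p (k + 1) (radial h) z) := by
    calc ∑' i, e (i + 1) = ∫⁻ z in ⋃ i, shell n σ (11 + (i + 1)),
          C * Tav κ (Psi α p (k + 1) (radial h)) z := by
          rw [lintegral_iUnion (fun i => measurableSet_shell _ _)]
          intro i j hij
          exact disjoint_shell hσ (by omega)
      _ ≤ ∫⁻ z, C * Tav κ (Psi α p (k + 1) (radial h)) z := setLIntegral_le_lintegral _ _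
      _ = C * ∫⁻ z, Tav κ (Psi α p (k + 1) (radial h)) z := lintegral_const_mul' _ _ hCtop
      _ ≤ _ := by
          gcongr
          exact lintegral_Tav_le hκpos (measurable_Psi hp (k + 1) hRd.continuous)
  have hcont := continuous_Psi (α := α) hp k hh.continuous
  have hPfin : ∀ z, Psi α p k h z ≠ ⊤ := fun z => ENNReal.ofReal_ne_top
  have hcover : (univ : Set (Fin n → ℂ)) ⊆ {z | nsq z ≤ 12 * σ} ∪ ⋃ i, shell n σ (11 + (i + 1)) := by
    intro z _
    by_cases hz : nsq z ≤ 12 * σ
    · exact Or.inl hz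
    · right
      push Not at hz
      rw [mem_iUnion]
      have hσ0 : 0 < σ := by linarith
      have hq : 12 < nsq z / σ := by rw [lt_div_iff₀ hσ0]; exact hz
      have hfl : 12 ≤ ⌊nsq z / σ⌋₊ := by
        apply Nat.le_floor
        exact_mod_cast hq.le
      refine ⟨⌊nsq z / σ⌋₊ - 12, ?_⟩
      have e1 : 11 + (⌊nsq z / σ⌋₊ - 12 + 1) = ⌊nsq z / σ⌋₊ := by omega
      rw [e1]
      refine ⟨?_, ?_⟩
      · have := Nat.floor_le (by linarith : 0 ≤ nsq z / σ)
        rw [le_div_iff₀ hσ0] at this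
        linarith
      · have := Nat.lt_floor_add_one (nsq z / σ)
        rw [div_lt_iff₀ hσ0] at this
        linarith
  calc ∫⁻ z, Psi α p k h z = ∫⁻ z in univ, Psi α p k h z := by rw [Measure.restrict_univ]
    _ ≤ ∫⁻ z in {z | nsq z ≤ 12 * σ} ∪ ⋃ i, shell n σ (11 + (i + 1)), Psi α p k h z :=
        lintegral_mono_set hcover
    _ ≤ (∫⁻ z in {z | nsq z ≤ 12 * σ}, Psi α p k h z) +
        (∫⁻ z in ⋃ i, shell n σ (11 + (i + 1)), Psi α p k h z) := lintegral_union_le _ _ _
    _ ≤ (∫⁻ z in {z | nsq z ≤ 12 * σ}, Psi α p k h z) + ∑' i, a (i + 1) := by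
        gcongr
        exact lintegral_iUnion_le _ _
    _ ≤ (∫⁻ z in {z | nsq z ≤ 12 * σ}, Psi α p k h z) + (a 0 + 2 * (C * (ENNReal.ofReal (4 ^ n) *
      ENNReal.ofReal (81 * κ ^ 2 * Real.pi) * ∫⁻ z, Psi α p (k + 1) (radial h) z))) := by
        gcongr
        exact le_trans hsum (by gcongr)
    _ < ⊤ := by
        rw [ENNReal.add_lt_top]
        refine ⟨lintegral_bounded_lt_top hcont hPfin (fun z hz => hz), ?_⟩
        rw [ENNReal.add_lt_top]
        refine ⟨lintegral_bounded_lt_top (R := σ * (11 + 1)) hcont hPfin (fun z hz => ?_), ?_⟩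
        · have := hz.2
          simp only [add_zero] at this
          exact_mod_cast this.le
        · apply ENNReal.mul_lt_top (by norm_num)
          apply ENNReal.mul_lt_top hCtop.lt_top
          exact ENNReal.mul_lt_top (by finiteness) hfin

end Pool.Agent.N139.Fock
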