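import Pool.Agent.N139.Fock.One
import Pool.Agent.Helper857.A1

set_option autoImplicit false

open Set Metric Filter Topology MeasureTheory

namespace Pool.Agent.N139.Fock

variable {n : ℕ}

/-- `|z|^2` -/
noncomputable def nsq (z : Fin n → ℂ) : ℝ := ∑ k, ‖z k‖ ^ 2

/-- the radial derivative `∑ z_k ∂f/∂z_k` -/
noncomputable def radial (f : (Fin n → ℂ) → ℂ) (z : Fin n → ℂ) : ℂ :=
  ∑ k, z k * fderiv ℂ f z (Pi.single k 1)

/-- the weight `e^{-α|z|²/2} / (1+|z|²)^k` -/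
noncomputable def wt (α : ℝ) (k : ℕ) (z : Fin n → ℂ) : ℝ :=
  Real.exp (-(α * nsq z / 2)) / (1 + nsq z) ^ k

theorem nsq_nonneg (z : Fin n → ℂ) : 0 ≤ nsq z := Finset.sum_nonneg fun _ _ => by positivity

theorem continuous_nsq : Continuous (nsq : (Fin n → ℂ) → ℝ) := by
  unfold nsq
  fun_prop

theorem nsq_smul (a : ℂ) (z : Fin n → ℂ) : nsq (a • z) = ‖a‖ ^ 2 * nsq z := by
  unfold nsq
  rw [Finset.mul_sum]
  apply Finset.sum_congr rfl
  intro k _
  rw [Pi.smul_apply, smul_eq_mul, norm_mul, mul_pow]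

theorem wt_pos (α : ℝ) (k : ℕ) (z : Fin n → ℂ) : 0 < wt α k z := by
  have := nsq_nonneg z
  unfold wt
  positivity

theorem continuous_wt (α : ℝ) (k : ℕ) : Continuous (wt α k : (Fin n → ℂ) → ℝ) := by
  unfold wt
  apply Continuous.div
  · have := continuous_nsq (n := n)
    fun_prop
  · have := continuous_nsq (n := n)
    fun_prop
  · intro z
    have := nsq_nonneg z
    positivity

theorem radial_eq (f : (Fin n → ℂ) → ℂ) (z : Fin n → ℂ) : radial f z = fderiv ℂ f z z := by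
  unfold radial
  have hz : (∑ k, z k • (Pi.single k 1 : Fin n → ℂ)) = z := by
    ext j
    simp [Finset.sum_apply, Pi.single_apply]
  calc ∑ k, z k * fderiv ℂ f z (Pi.single k 1)
      = fderiv ℂ f z (∑ k, z k • (Pi.single k 1 : Fin n → ℂ)) := by
        rw [map_sum]
        apply Finset.sum_congr rfl
        intro k _
        rw [map_smul, smul_eq_mul]
    _ = fderiv ℂ f z z := by rw [hz]

theorem differentiable_radial {f : (Fin n → ℂ) → ℂ} (hf : Differentiable ℂ f) :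
    Differentiable ℂ (radial f) := by
  unfold radial
  apply Differentiable.fun_sum
  intro k _
  apply Differentiable.mul
  · fun_prop
  · exact Pool.Agent.Helper857.differentiable_fderiv_apply hf _

theorem differentiable_slice {f : (Fin n → ℂ) → ℂ} (hf : Differentiable ℂ f) (z : Fin n → ℂ) :
    Differentiable ℂ (fun a : ℂ => f (a • z)) :=
  hf.comp (differentiable_id.smul_const z)

theorem hasDerivAt_slice {f : (Fin n → ℂ) → ℂ} (hf : Differentiable ℂ f) (z : Fin n → ℂ) (a : ℂ) :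
    HasDerivAt (fun a : ℂ => f (a • z)) (fderiv ℂ f (a • z) z) a := by
  have h1 : HasDerivAt (fun a : ℂ => a • z) z a := by
    simpa using (hasDerivAt_id a).smul_const z
  exact ((hf (a • z)).hasFDerivAt).comp_hasDerivAt a h1

theorem radial_smul {f : (Fin n → ℂ) → ℂ} (z : Fin n → ℂ) (a : ℂ) :
    radial f (a • z) = a * fderiv ℂ f (a • z) z := by
  rw [radial_eq, map_smul, smul_eq_mul]

theorem wt_anti {α : ℝ} (hα : 0 < α) (k : ℕ) {z w : Fin n → ℂ} (h : nsq w ≤ nsq z) :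
    wt α k z ≤ wt α k w := by
  have h1 := nsq_nonneg w
  unfold wt
  gcongr

theorem wt_le {α : ℝ} (hα : 0 < α) (k : ℕ) {κ : ℝ} (hκ : 0 ≤ κ) {z : Fin n → ℂ} {b : ℂ}
    (h1 : ‖b - 1‖ * (1 + nsq z) ≤ κ) (h2 : ‖b - 1‖ ≤ 1 / 2) :
    wt α k z ≤ Real.exp (α * (5 / 4 * κ)) * (1 + 5 / 2 * κ) ^ k * wt α k (b • z) := by
  have hs := nsq_nonneg z
  have hs' := nsq_nonneg (b • z)
  have hb : ‖b‖ ≤ 1 + ‖b - 1‖ := by
    have := norm_add_le (1 : ℂ) (b - 1)
    simpa using this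
  have h3 : nsq (b • z) ≤ nsq z + 5 / 2 * κ := by
    rw [nsq_smul]
    have h4 : ‖b‖ ^ 2 ≤ (1 + ‖b - 1‖) ^ 2 := by gcongr
    have h5 : ‖b‖ ^ 2 ≤ 1 + 5 / 2 * ‖b - 1‖ := by nlinarith [norm_nonneg (b - 1)]
    have h6 : ‖b‖ ^ 2 * nsq z ≤ (1 + 5 / 2 * ‖b - 1‖) * nsq z := by gcongr
    have h7 : ‖b - 1‖ * nsq z ≤ κ := by nlinarith [norm_nonneg (b - 1)]
    nlinarith
  unfold wt
  have h8 : Real.exp (-(α * nsq z / 2)) ≤
      Real.exp (α * (5 / 4 * κ)) * Real.exp (-(α * nsq (b • z) / 2)) := by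
    rw [← Real.exp_add]
    apply Real.exp_le_exp.2
    nlinarith
  have h9 : (1 + nsq (b • z)) ^ k ≤ (1 + 5 / 2 * κ) ^ k * (1 + nsq z) ^ k := by
    rw [← mul_pow]
    gcongr
    nlinarith
  rw [mul_div_assoc', div_le_div_iff₀ (by positivity) (by positivity)]
  calc Real.exp (-(α * nsq z / 2)) * (1 + nsq (b • z)) ^ k
      ≤ (Real.exp (α * (5 / 4 * κ)) * Real.exp (-(α * nsq (b • z) / 2))) *
        ((1 + 5 / 2 * κ) ^ k * (1 + nsq z) ^ k) := by gcongr
    _ = _ := by ring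

/-- scaling of Lebesgue measure on `ℂⁿ` under multiplication by a complex scalar -/
theorem map_smul_volume {b : ℂ} (hb : b ≠ 0) :
    Measure.map (fun z : Fin n → ℂ => b • z) volume
      = ENNReal.ofReal ((‖b‖ ^ (2 * n))⁻¹) • (volume : Measure (Fin n → ℂ)) := by
  set f : (Fin n → ℂ) →ₗ[ℂ] (Fin n → ℂ) := b • LinearMap.id with hf
  have hdet : LinearMap.det (f.restrictScalars ℝ) = ‖b‖ ^ (2 * n) := by
    rw [LinearMap.det_restrictScalars, hf, LinearMap.det_smul]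
    simp [Algebra.norm_complex_eq, pow_mul, Complex.normSq_eq_norm_sq]
    ring
  have hpos : 0 < ‖b‖ := norm_pos_iff.2 hb
  have h := Measure.map_linearMap_addHaar_eq_smul_addHaar (volume : Measure (Fin n → ℂ))
    (f := f.restrictScalars ℝ) (by rw [hdet]; positivity)
  rw [hdet, abs_of_pos (by positivity)] at h
  exact h

theorem lintegral_smul {b : ℂ} (hb : b ≠ 0) {H : (Fin n → ℂ) → ENNReal} (hH : Measurable H) :
    ∫⁻ z, H (b • z) = ENNReal.ofReal ((‖b‖ ^ (2 * n))⁻¹) * ∫⁻ z, H z := by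
  have h1 : ∫⁻ z, H z ∂(Measure.map (fun z : Fin n → ℂ => b • z) volume) = ∫⁻ z, H (b • z) :=
    lintegral_map hH (measurable_const_smul b)
  rw [← h1, map_smul_volume hb, lintegral_smul_measure, smul_eq_mul]

end Pool.Agent.N139.Fock
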