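import Pool.Agent.N139.Fock.Back

set_option autoImplicit false

open Set Metric Filter Topology MeasureTheory

namespace Pool.Agent.N139.Fock

variable {n : ℕ}

theorem forward_bdd {α : ℝ} (hα : 0 < α) (k : ℕ) {h : (Fin n → ℂ) → ℂ}
    (hh : Differentiable ℂ h) (hb : ∃ C, ∀ z, ‖h z‖ * wt α k z ≤ C) :
    ∃ C, ∀ z, ‖radial h z‖ * wt α (k + 1) z ≤ C := by
  obtain ⟨C, hC⟩ := hb
  refine ⟨4 * ((Real.exp (α * (5 / 4 * (1 / 4))) * (1 + 5 / 2 * (1 / 4)) ^ k) * C), fun z => ?_⟩
  obtain ⟨a, ha, hle⟩ := forward_point (α := α) k hh z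
  have hs := nsq_nonneg z
  have h2 : ‖a - 1‖ ≤ 1 / 2 := by nlinarith [norm_nonneg (a - 1)]
  have h3 := wt_le hα k (κ := 1 / 4) (by norm_num) ha h2
  refine le_trans hle ?_
  apply mul_le_mul_of_nonneg_left _ (by norm_num)
  calc ‖h (a • z)‖ * wt α k z ≤ ‖h (a • z)‖ *
        (Real.exp (α * (5 / 4 * (1 / 4))) * (1 + 5 / 2 * (1 / 4)) ^ k * wt α k (a • z)) := by gcongr
    _ = (Real.exp (α * (5 / 4 * (1 / 4))) * (1 + 5 / 2 * (1 / 4)) ^ k) *
        (‖h (a • z)‖ * wt α k (a • z)) := by ring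
    _ ≤ _ := by
        gcongr
        exact hC _

theorem backward_bdd {α : ℝ} (hα : 0 < α) (k : ℕ) {h : (Fin n → ℂ) → ℂ}
    (hh : Differentiable ℂ h) (hb : ∃ C, ∀ z, ‖radial h z‖ * wt α (k + 1) z ≤ C) :
    ∃ C, ∀ z, ‖h z‖ * wt α k z ≤ C := by
  obtain ⟨C, hC⟩ := hb
  obtain ⟨σ, hσ, hcon⟩ := exists_sigma 0 hα one_pos
  have hq : Real.exp (-(α * σ / 2)) ≤ 1 / 2 := by
    have hE := Real.exp_pos (-(α * σ / 2))
    simp only [Real.rpow_one, pow_zero, mul_one] at hcon
    linarith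
  set D : ℝ := 2 * (1 + 2 * σ) *
    ((Real.exp (α * (5 / 4 * (1 + 2 * σ))) * (1 + 5 / 2 * (1 + 2 * σ)) ^ (k + 1)) * C) with hD
  have hcont : Continuous (fun z => ‖h z‖ * wt α k z) := (hh.continuous.norm).mul (continuous_wt α k)
  obtain ⟨z0, hz0, hmax⟩ := (isCompact_closedBall (0 : Fin n → ℂ) (Real.sqrt (12 * σ))).exists_isMaxOn
    (nonempty_closedBall.2 (Real.sqrt_nonneg _)) hcont.continuousOn
  set B : ℝ := max (‖h z0‖ * wt α k z0) (2 * D) with hB
  have hB1 : ‖h z0‖ * wt α k z0 ≤ B := le_max_left _ _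
  have hB2 : 2 * D ≤ B := le_max_right _ _
  have claim : ∀ j : ℕ, ∀ z : Fin n → ℂ, nsq z < σ * (12 + j : ℕ) → ‖h z‖ * wt α k z ≤ B := by
    intro j
    induction j with
    | zero =>
      intro z hz
      have hz' : nsq z ≤ 12 * σ := by
        push_cast at hz
        linarith
      exact le_trans (hmax (nsq_bounded z hz')) hB1
    | succ j ih =>
      intro z hz
      by_cases hz1 : nsq z < σ * (12 + j : ℕ)
      · exact ih z hz1
      · push Not at hz1
        have hz2 : nsq z < σ * (((12 + j : ℕ) : ℝ) + 1) := by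
          have : ((12 + (j + 1) : ℕ) : ℝ) = ((12 + j : ℕ) : ℝ) + 1 := by push_cast; ring
          rwa [this] at hz
        have hj2 : 2 ≤ 12 + j := by omega
        obtain ⟨a, ha, hle⟩ := shell_point hα hσ k hh hj2 hz1 hz2
        obtain ⟨hl1, hl2, hl3, hl4⟩ := lam_facts hj2
        have hs := nsq_nonneg z
        have hjc : (12 : ℝ) ≤ ((12 + j : ℕ) : ℝ) := by push_cast; linarith [Nat.cast_nonneg (α := ℝ) j]
        have hbig : 12 * σ ≤ nsq z := by nlinarith
        have h2 : ‖a - 1‖ ≤ 1 / 2 := by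
          by_contra hcon2
          push Not at hcon2
          nlinarith
        have h3 := wt_le hα (k + 1) (κ := 1 + 2 * σ) (by linarith) ha h2
        have h4 : 2 * (1 + 2 * σ) * (‖radial h (a • z)‖ * wt α (k + 1) z) ≤ D := by
          rw [hD]
          apply mul_le_mul_of_nonneg_left _ (by linarith)
          calc ‖radial h (a • z)‖ * wt α (k + 1) z ≤ ‖radial h (a • z)‖ *
                (Real.exp (α * (5 / 4 * (1 + 2 * σ))) * (1 + 5 / 2 * (1 + 2 * σ)) ^ (k + 1) *
                  wt α (k + 1) (a • z)) := by gcongr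
            _ = (Real.exp (α * (5 / 4 * (1 + 2 * σ))) * (1 + 5 / 2 * (1 + 2 * σ)) ^ (k + 1)) *
                (‖radial h (a • z)‖ * wt α (k + 1) (a • z)) := by ring
            _ ≤ _ := by
                gcongr
                exact hC _
        have h5 : ‖h ((lam (12 + j) : ℂ) • z)‖ * wt α k ((lam (12 + j) : ℂ) • z) ≤ B := by
          apply ih
          rw [nsq_smul, Complex.norm_real, Real.norm_of_nonneg hl3.le, hl1]
          have hjpos : (0 : ℝ) < ((12 + j : ℕ) : ℝ) := by linarith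
          have e1 : (1 - 1 / ((12 + j : ℕ) : ℝ)) * nsq z <
              (1 - 1 / ((12 + j : ℕ) : ℝ)) * (σ * (((12 + j : ℕ) : ℝ) + 1)) := by
            apply mul_lt_mul_of_pos_left hz2
            rw [← hl1]; positivity
          have e2 : (1 - 1 / ((12 + j : ℕ) : ℝ)) * (σ * (((12 + j : ℕ) : ℝ) + 1)) =
              σ * ((12 + j : ℕ) : ℝ) - σ / ((12 + j : ℕ) : ℝ) := by field_simp; ring
          have e3 : 0 < σ / ((12 + j : ℕ) : ℝ) := by positivity
          linarith
        have h6 : 0 ≤ ‖h ((lam (12 + j) : ℂ) • z)‖ * wt α k ((lam (12 + j) : ℂ) • z) :=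
          mul_nonneg (norm_nonneg _) (wt_pos _ _ _).le
        have h7 : Real.exp (-(α * σ / 2)) *
            (‖h ((lam (12 + j) : ℂ) • z)‖ * wt α k ((lam (12 + j) : ℂ) • z)) ≤ 1 / 2 * B :=
          mul_le_mul hq h5 h6 (by norm_num)
        linarith
  refine ⟨B, fun z => ?_⟩
  obtain ⟨j, hj⟩ := exists_nat_gt (nsq z / σ)
  have hσ0 : 0 < σ := by linarith
  rw [div_lt_iff₀ hσ0] at hj
  apply claim j z
  push_cast
  nlinarith

/-- continuous essentially bounded functions are bounded -/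
theorem memLp_top_iff {F : (Fin n → ℂ) → ℂ} (hF : Continuous F) :
    MemLp F ⊤ volume ↔ ∃ C, ∀ z, ‖F z‖ ≤ C := by
  constructor
  · intro h
    have h1 := ae_le_eLpNormEssSup (f := F) (μ := (volume : Measure (Fin n → ℂ)))
    have h2 : eLpNormEssSup F volume < ⊤ := by
      have := h.2
      rwa [eLpNorm_exponent_top] at this
    refine ⟨(eLpNormEssSup F volume).toReal, fun z => ?_⟩
    have hopen : IsOpen {z | (eLpNormEssSup F volume).toReal < ‖F z‖} :=
      isOpen_lt continuous_const hF.norm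
    have hzero : volume {z | (eLpNormEssSup F volume).toReal < ‖F z‖} = 0 := by
      rw [measure_eq_zero_iff_ae_notMem]
      filter_upwards [h1] with y hy hcon
      rw [← ofReal_norm, ENNReal.ofReal_le_iff_le_toReal h2.ne] at hy
      linarith
    rw [IsOpen.measure_eq_zero_iff (volume : Measure (Fin n → ℂ)) hopen] at hzero
    by_contra hcon
    push Not at hcon
    have : z ∈ {z | (eLpNormEssSup F volume).toReal < ‖F z‖} := hcon
    rw [hzero] at this
    exact this
  · rintro ⟨C, hC⟩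
    exact memLp_top_of_bound hF.aestronglyMeasurable C (Eventually.of_forall hC)

/-- the weighted function -/
noncomputable def Fk (α : ℝ) (k : ℕ) (h : (Fin n → ℂ) → ℂ) (z : Fin n → ℂ) : ℂ :=
  h z / ((1 + nsq z : ℝ) : ℂ) ^ k * (Real.exp (-(α * nsq z / 2)) : ℂ)

theorem norm_Fk (α : ℝ) (k : ℕ) (h : (Fin n → ℂ) → ℂ) (z : Fin n → ℂ) :
    ‖Fk α k h z‖ = ‖h z‖ * wt α k z := by
  have hs := nsq_nonneg z
  unfold Fk wt
  rw [norm_mul, norm_div, norm_pow, Complex.norm_real, Complex.norm_real,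
    Real.norm_of_nonneg (by positivity), Real.norm_of_nonneg (Real.exp_pos _).le]
  ring

theorem continuous_Fk (α : ℝ) (k : ℕ) {h : (Fin n → ℂ) → ℂ} (hh : Continuous h) :
    Continuous (Fk α k h) := by
  unfold Fk
  have hn := continuous_nsq (n := n)
  apply Continuous.mul
  · apply Continuous.div hh
    · fun_prop
    · intro z
      have hs := nsq_nonneg z
      apply pow_ne_zero
      exact_mod_cast (by positivity : (1 + nsq z) ≠ 0)
  · fun_prop

theorem memLp_Fk_iff_lintegral {α : ℝ} {p : ENNReal} (hp : p ≠ 0) (hp' : p ≠ ⊤) (k : ℕ)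
    {h : (Fin n → ℂ) → ℂ} (hh : Continuous h) :
    MemLp (Fk α k h) p volume ↔ ∫⁻ z, Psi α p.toReal k h z < ⊤ := by
  have h1 : ∀ z, Psi α p.toReal k h z = ‖Fk α k h z‖ₑ ^ p.toReal := by
    intro z
    unfold Psi
    rw [← norm_Fk, ← ofReal_norm, ENNReal.ofReal_rpow_of_nonneg (norm_nonneg _)
      ENNReal.toReal_nonneg]
  unfold MemLp
  rw [eLpNorm_lt_top_iff_lintegral_rpow_enorm_lt_top hp hp']
  simp only [h1]
  exact ⟨fun h => h.2, fun h => ⟨(continuous_Fk α k hh).aestronglyMeasurable, h⟩⟩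

theorem step_iff {α : ℝ} (hα : 0 < α) {p : ENNReal} (hp : p ≠ 0) (k : ℕ)
    {h : (Fin n → ℂ) → ℂ} (hh : Differentiable ℂ h) :
    MemLp (Fk α k h) p volume ↔ MemLp (Fk α (k + 1) (radial h)) p volume := by
  have hR := differentiable_radial hh
  by_cases hp' : p = ⊤
  · subst hp'
    rw [memLp_top_iff (continuous_Fk α k hh.continuous),
      memLp_top_iff (continuous_Fk α (k + 1) hR.continuous)]
    simp only [norm_Fk]
    exact ⟨forward_bdd hα k hh, backward_bdd hα k hh⟩
  · rw [memLp_Fk_iff_lintegral hp hp' k hh.continuous,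
      memLp_Fk_iff_lintegral hp hp' (k + 1) hR.continuous]
    have hpos : 0 < p.toReal := ENNReal.toReal_pos hp hp'
    exact ⟨forward_lintegral hα hpos k hh, backward_lintegral hα hpos k hh⟩

theorem iterate_iff {α : ℝ} (hα : 0 < α) {p : ENNReal} (hp : p ≠ 0) (N : ℕ)
    {h : (Fin n → ℂ) → ℂ} (hh : Differentiable ℂ h) :
    Differentiable ℂ (radial^[N] h) ∧
    (MemLp (Fk α 0 h) p volume ↔ MemLp (Fk α N (radial^[N] h)) p volume) := by
  induction N with
  | zero => exact ⟨hh, Iff.rfl⟩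
  | succ N ih =>
    rw [Function.iterate_succ_apply']
    exact ⟨differentiable_radial ih.1, ih.2.trans (step_iff hα hp N ih.1)⟩

end Pool.Agent.N139.Fock
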