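import Pool.Agent.N139.Fock.Basic

set_option autoImplicit false

open Set Metric Filter Topology MeasureTheory

namespace Pool.Agent.N139.Fock

variable {n : ℕ}

open Classical in
/-- kernel of the local averaging operator -/
noncomputable def kern (κ : ℝ) (b : ℂ) (z : Fin n → ℂ) : ENNReal :=
  if 2 * κ ≤ 1 + nsq z ∧ ‖b - 1‖ < κ / (1 + nsq z) then ENNReal.ofReal ((1 + nsq z) ^ 2) else 0

open Classical in
/-- majorant of the kernel at the image point -/
noncomputable def kern' (κ : ℝ) (b : ℂ) (w : Fin n → ℂ) : ENNReal :=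
  if ‖b - 1‖ < 9 / 4 * κ / (1 + nsq w) then ENNReal.ofReal (16 * (1 + nsq w) ^ 2) else 0

/-- local averaging operator along complex slices -/
noncomputable def Tav (κ : ℝ) (Φ : (Fin n → ℂ) → ENNReal) (z : Fin n → ℂ) : ENNReal :=
  ∫⁻ b : ℂ, kern κ b z * Φ (b • z)

theorem measurable_nsq : Measurable (nsq : (Fin n → ℂ) → ℝ) := continuous_nsq.measurable

theorem measurable_kern (κ : ℝ) :
    Measurable (fun q : (Fin n → ℂ) × ℂ => kern κ q.2 q.1) := by
  unfold kern
  have h1 : Measurable (fun q : (Fin n → ℂ) × ℂ => nsq q.1) := measurable_nsq.comp measurable_fst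
  apply Measurable.ite
  · apply MeasurableSet.inter
    · exact measurableSet_le measurable_const (measurable_const.add h1)
    · exact measurableSet_lt (by fun_prop) (measurable_const.div (measurable_const.add h1))
  · exact ENNReal.measurable_ofReal.comp ((measurable_const.add h1).pow_const 2)
  · exact measurable_const

theorem measurable_kern' (κ : ℝ) :
    Measurable (fun q : (Fin n → ℂ) × ℂ => kern' κ q.2 q.1) := by
  unfold kern'
  have h1 : Measurable (fun q : (Fin n → ℂ) × ℂ => nsq q.1) := measurable_nsq.comp measurable_fst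
  apply Measurable.ite
  · exact measurableSet_lt (by fun_prop) (measurable_const.div (measurable_const.add h1))
  · exact ENNReal.measurable_ofReal.comp (((measurable_const.add h1).pow_const 2).const_mul _)
  · exact measurable_const

theorem kern_le {κ : ℝ} (hκ : 0 < κ) (b : ℂ) (z : Fin n → ℂ) :
    kern κ b z ≤ kern' κ b (b • z) := by
  unfold kern kern'
  have hs := nsq_nonneg z
  split_ifs with h1 h2 h2
  · obtain ⟨h3, h4⟩ := h1
    rw [lt_div_iff₀ (by positivity)] at h4
    have h5 : ‖b - 1‖ ≤ 1 / 2 := by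
      by_contra hcon
      push Not at hcon
      nlinarith [norm_nonneg (b - 1)]
    have h6 : 1 / 2 ≤ ‖b‖ := by
      have := norm_sub_norm_le (1 : ℂ) (1 - b)
      rw [norm_one, norm_sub_rev, sub_sub_cancel] at this
      linarith
    apply ENNReal.ofReal_le_ofReal
    have h7 : nsq z ≤ 4 * nsq (b • z) := by
      rw [nsq_smul]
      have : (1 / 4 : ℝ) ≤ ‖b‖ ^ 2 := by nlinarith
      nlinarith
    have h8 : (1 + nsq z) ^ 2 ≤ (4 * (1 + nsq (b • z))) ^ 2 := by
      apply pow_le_pow_left₀ (by positivity)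
      linarith
    linarith
  · exfalso
    apply h2
    obtain ⟨h3, h4⟩ := h1
    have h4' := h4
    rw [lt_div_iff₀ (by positivity)] at h4
    have h5 : ‖b - 1‖ ≤ 1 / 2 := by
      by_contra hcon
      push Not at hcon
      nlinarith [norm_nonneg (b - 1)]
    have h6 : ‖b‖ ≤ 3 / 2 := by
      have := norm_add_le (1 : ℂ) (b - 1)
      rw [norm_one, add_sub_cancel] at this
      linarith
    have h7 : nsq (b • z) ≤ 9 / 4 * nsq z := by
      rw [nsq_smul]
      have : ‖b‖ ^ 2 ≤ (9 / 4 : ℝ) := by nlinarith [norm_nonneg b]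
      nlinarith
    have hs' := nsq_nonneg (b • z)
    refine lt_of_lt_of_le h4' ?_
    rw [div_le_div_iff₀ (by positivity) (by positivity)]
    nlinarith
  · exact zero_le
  · exact le_rfl

theorem kern_eq_zero {κ : ℝ} {b : ℂ} (hb : 1 / 2 ≤ ‖b - 1‖) (z : Fin n → ℂ) :
    kern κ b z = 0 := by
  unfold kern
  have hs := nsq_nonneg z
  rw [if_neg]
  rintro ⟨h3, h4⟩
  rw [lt_div_iff₀ (by positivity)] at h4
  nlinarith

theorem coe_pi : (NNReal.pi : ENNReal) = ENNReal.ofReal Real.pi := by
  rw [← NNReal.coe_real_pi, ENNReal.ofReal_coe_nnreal]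

theorem lintegral_kern' {κ : ℝ} (hκ : 0 < κ) (w : Fin n → ℂ) :
    ∫⁻ b : ℂ, kern' κ b w = ENNReal.ofReal (81 * κ ^ 2 * Real.pi) := by
  have hs := nsq_nonneg w
  have h1 : (fun b : ℂ => kern' κ b w) = (ball (1 : ℂ) (9 / 4 * κ / (1 + nsq w))).indicator
      (fun _ => ENNReal.ofReal (16 * (1 + nsq w) ^ 2)) := by
    funext b
    unfold kern'
    simp only [indicator, mem_ball, dist_eq_norm]
  rw [h1, lintegral_indicator measurableSet_ball, lintegral_const,
    Measure.restrict_apply MeasurableSet.univ, univ_inter, Complex.volume_ball,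
    ← ENNReal.ofReal_pow (by positivity), coe_pi,
    ← ENNReal.ofReal_mul (by positivity), ← ENNReal.ofReal_mul (by positivity)]
  congr 1
  field_simp
  ring

/-- the local averaging operator is bounded on `L¹` -/
theorem lintegral_Tav_le {κ : ℝ} (hκ : 0 < κ) {Φ : (Fin n → ℂ) → ENNReal} (hΦ : Measurable Φ) :
    ∫⁻ z, Tav κ Φ z ≤ ENNReal.ofReal (4 ^ n) * ENNReal.ofReal (81 * κ ^ 2 * Real.pi) * ∫⁻ z, Φ z := by
  have hsm : Measurable (fun q : (Fin n → ℂ) × ℂ => Φ (q.2 • q.1)) :=
    hΦ.comp (measurable_snd.smul measurable_fst)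
  unfold Tav
  calc ∫⁻ z, ∫⁻ b : ℂ, kern κ b z * Φ (b • z)
      = ∫⁻ b : ℂ, ∫⁻ z, kern κ b z * Φ (b • z) := by
        apply lintegral_lintegral_swap
        apply Measurable.aemeasurable
        exact (measurable_kern κ).mul hsm
    _ ≤ ∫⁻ b : ℂ, ENNReal.ofReal (4 ^ n) * ∫⁻ w, kern' κ b w * Φ w := by
        apply lintegral_mono
        intro b
        by_cases hb : 1 / 2 ≤ ‖b - 1‖
        · simp only [kern_eq_zero hb, zero_mul, lintegral_zero]
          exact zero_le
        · push Not at hb
          have h6 : 1 / 2 < ‖b‖ := by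
            have := norm_sub_norm_le (1 : ℂ) (1 - b)
            rw [norm_one, norm_sub_rev, sub_sub_cancel] at this
            linarith
          have hb0 : b ≠ 0 := by
            intro h
            rw [h, norm_zero] at h6
            linarith
          have hmeas : Measurable (fun w => kern' κ b w * Φ w) := by
            apply Measurable.mul _ hΦ
            exact (measurable_kern' κ).comp (measurable_id.prodMk measurable_const)
          calc ∫⁻ z, kern κ b z * Φ (b • z)
              ≤ ∫⁻ z, kern' κ b (b • z) * Φ (b • z) := by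
                apply lintegral_mono
                intro z
                exact mul_le_mul_left (kern_le hκ b z) _
            _ = ENNReal.ofReal ((‖b‖ ^ (2 * n))⁻¹) * ∫⁻ w, kern' κ b w * Φ w :=
                lintegral_smul hb0 hmeas
            _ ≤ ENNReal.ofReal (4 ^ n) * ∫⁻ w, kern' κ b w * Φ w := by
                apply mul_le_mul_left
                apply ENNReal.ofReal_le_ofReal
                rw [pow_mul, ← inv_pow]
                apply pow_le_pow_left₀ (by positivity)
                rw [inv_le_comm₀ (by positivity) (by norm_num)]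
                nlinarith
    _ = ENNReal.ofReal (4 ^ n) * ∫⁻ b : ℂ, ∫⁻ w, kern' κ b w * Φ w := by
        rw [lintegral_const_mul' _ _ ENNReal.ofReal_ne_top]
    _ = ENNReal.ofReal (4 ^ n) * ∫⁻ w, ∫⁻ b : ℂ, kern' κ b w * Φ w := by
        congr 1
        symm
        apply lintegral_lintegral_swap
        apply Measurable.aemeasurable
        exact (measurable_kern' κ).mul (hΦ.comp measurable_fst)
    _ = ENNReal.ofReal (4 ^ n) * ∫⁻ w, ENNReal.ofReal (81 * κ ^ 2 * Real.pi) * Φ w := by
        congr 1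
        apply lintegral_congr
        intro w
        rw [lintegral_mul_const'', lintegral_kern' hκ w]
        apply Measurable.aemeasurable
        exact (measurable_kern' κ).comp (measurable_const.prodMk measurable_id)
    _ = _ := by
        rw [lintegral_const_mul' _ _ ENNReal.ofReal_ne_top, ← mul_assoc]

/-- the `p`-th power of the weighted modulus -/
noncomputable def Psi (α p : ℝ) (k : ℕ) (h : (Fin n → ℂ) → ℂ) (z : Fin n → ℂ) : ENNReal :=
  ENNReal.ofReal ((‖h z‖ * wt α k z) ^ p)

theorem continuous_Psi {α p : ℝ} (hp : 0 < p) (k : ℕ) {h : (Fin n → ℂ) → ℂ}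
    (hh : Continuous h) : Continuous (Psi α p k h) := by
  unfold Psi
  apply ENNReal.continuous_ofReal.comp
  exact ((hh.norm).mul (continuous_wt α k)).rpow_const (fun _ => Or.inr hp.le)

theorem measurable_Psi {α p : ℝ} (hp : 0 < p) (k : ℕ) {h : (Fin n → ℂ) → ℂ}
    (hh : Continuous h) : Measurable (Psi α p k h) := (continuous_Psi hp k hh).measurable

theorem Tav_eq {κ : ℝ} {z : Fin n → ℂ} (hz : 2 * κ ≤ 1 + nsq z) (Φ : (Fin n → ℂ) → ENNReal) :
    Tav κ Φ z = ∫⁻ b in ball (1 : ℂ) (κ / (1 + nsq z)), ENNReal.ofReal ((1 + nsq z) ^ 2) * Φ (b • z) := by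
  unfold Tav
  rw [← lintegral_indicator measurableSet_ball]
  apply lintegral_congr
  intro b
  unfold kern
  simp only [hz, true_and, indicator, mem_ball, dist_eq_norm, ite_mul, zero_mul]

/-- the constant in the local estimate -/
noncomputable def cloc (α p κ : ℝ) (k : ℕ) : ENNReal :=
  ENNReal.ofReal (4 / (κ ^ 2 * Real.pi)) *
    ENNReal.ofReal ((Real.exp (α * (5 / 4 * κ)) * (1 + 5 / 2 * κ) ^ k) ^ p)

/-- local estimate: value of `Psi` (with the weight frozen at `z`) by the averaging operator -/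
theorem local_le {α p κ : ℝ} (hα : 0 < α) (hp : 0 < p) (hκ : 0 < κ) (k : ℕ)
    {h : (Fin n → ℂ) → ℂ} (hh : Differentiable ℂ h) {z : Fin n → ℂ} (hz : 2 * κ ≤ 1 + nsq z)
    {a : ℂ} (ha : ‖a - 1‖ * (1 + nsq z) ≤ κ / 2) :
    ENNReal.ofReal ((‖h (a • z)‖ * wt α k z) ^ p) ≤
      cloc α p κ k * Tav κ (Psi α p k h) z := by
  have hs := nsq_nonneg z
  set s := nsq z with hsdef
  set r : ℝ := κ / (2 * (1 + s)) with hr
  set K : ℝ := Real.exp (α * (5 / 4 * κ)) * (1 + 5 / 2 * κ) ^ k with hK
  have hKpos : 0 < K := by positivity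
  have hrpos : 0 < r := by positivity
  have hw := wt_pos α k z
  have hsub : ball a r ⊆ ball (1 : ℂ) (κ / (1 + s)) := by
    intro b hb
    rw [mem_ball, dist_eq_norm] at hb ⊢
    have h1 : ‖b - 1‖ ≤ ‖b - a‖ + ‖a - 1‖ := norm_sub_le_norm_sub_add_norm_sub _ _ _
    have h2 : ‖a - 1‖ ≤ r := by
      rw [hr, le_div_iff₀ (by positivity)]
      linarith
    have h3 : κ / (1 + s) = r + r := by
      rw [hr]; field_simp; ring
    rw [h3]
    linarith
  have h1 := area_submean (differentiable_slice hh z) a (r := r) hp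
  have h2 : ENNReal.ofReal ((‖h (a • z)‖ * wt α k z) ^ p) * volume (ball a r) ≤
      ENNReal.ofReal (K ^ p) * ∫⁻ b in ball (1 : ℂ) (κ / (1 + s)), Psi α p k h (b • z) := by
    calc ENNReal.ofReal ((‖h (a • z)‖ * wt α k z) ^ p) * volume (ball a r)
        = ENNReal.ofReal (wt α k z ^ p) * (ENNReal.ofReal (‖h (a • z)‖ ^ p) * volume (ball a r)) := by
          rw [Real.mul_rpow (norm_nonneg _) hw.le, ENNReal.ofReal_mul (by positivity)]
          ring
      _ ≤ ENNReal.ofReal (wt α k z ^ p) * ∫⁻ b in ball a r, ENNReal.ofReal (‖h (b • z)‖ ^ p) :=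
          mul_le_mul_right h1 _
      _ = ∫⁻ b in ball a r, ENNReal.ofReal (wt α k z ^ p) * ENNReal.ofReal (‖h (b • z)‖ ^ p) := by
          rw [lintegral_const_mul' _ _ ENNReal.ofReal_ne_top]
      _ ≤ ∫⁻ b in ball (1 : ℂ) (κ / (1 + s)), ENNReal.ofReal (wt α k z ^ p) * ENNReal.ofReal (‖h (b • z)‖ ^ p) :=
          lintegral_mono_set hsub
      _ ≤ ∫⁻ b in ball (1 : ℂ) (κ / (1 + s)), ENNReal.ofReal (K ^ p) * Psi α p k h (b • z) := by
          apply setLIntegral_mono_ae' measurableSet_ball
          refine Eventually.of_forall fun b hb => ?_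
          rw [mem_ball, dist_eq_norm, lt_div_iff₀ (by positivity)] at hb
          have hb2 : ‖b - 1‖ ≤ 1 / 2 := by
            by_contra hcon
            push Not at hcon
            nlinarith [norm_nonneg (b - 1)]
          have h3 := wt_le hα k hκ.le (z := z) (b := b) hb.le hb2
          unfold Psi
          rw [← ENNReal.ofReal_mul (by positivity), ← ENNReal.ofReal_mul (by positivity)]
          apply ENNReal.ofReal_le_ofReal
          rw [← Real.mul_rpow hw.le (norm_nonneg _),
            ← Real.mul_rpow hKpos.le (mul_nonneg (norm_nonneg _) (wt_pos α k (b • z)).le)]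
          apply Real.rpow_le_rpow (by positivity) _ hp.le
          calc wt α k z * ‖h (b • z)‖ ≤ (K * wt α k (b • z)) * ‖h (b • z)‖ :=
                mul_le_mul_of_nonneg_right h3 (norm_nonneg _)
            _ = K * (‖h (b • z)‖ * wt α k (b • z)) := by ring
      _ = _ := by rw [lintegral_const_mul' _ _ ENNReal.ofReal_ne_top]
  have hvol : volume (ball a r) = ENNReal.ofReal (r ^ 2 * Real.pi) := by
    rw [Complex.volume_ball, ← ENNReal.ofReal_pow (by positivity), coe_pi,
      ← ENNReal.ofReal_mul (by positivity)]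
  rw [hvol] at h2
  have hone : ENNReal.ofReal (r ^ 2 * Real.pi) *
      (ENNReal.ofReal (4 / (κ ^ 2 * Real.pi)) * ENNReal.ofReal ((1 + s) ^ 2)) = 1 := by
    rw [← ENNReal.ofReal_mul (by positivity), ← ENNReal.ofReal_mul (by positivity),
      ← ENNReal.ofReal_one]
    congr 1
    rw [hr]
    have := Real.pi_pos
    field_simp
    ring
  rw [Tav_eq hz, lintegral_const_mul' _ _ ENNReal.ofReal_ne_top]
  calc ENNReal.ofReal ((‖h (a • z)‖ * wt α k z) ^ p)
      = (ENNReal.ofReal ((‖h (a • z)‖ * wt α k z) ^ p) * ENNReal.ofReal (r ^ 2 * Real.pi)) *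
        (ENNReal.ofReal (4 / (κ ^ 2 * Real.pi)) * ENNReal.ofReal ((1 + s) ^ 2)) := by
        rw [mul_assoc, hone, mul_one]
    _ ≤ (ENNReal.ofReal (K ^ p) * ∫⁻ b in ball (1 : ℂ) (κ / (1 + s)), Psi α p k h (b • z)) *
        (ENNReal.ofReal (4 / (κ ^ 2 * Real.pi)) * ENNReal.ofReal ((1 + s) ^ 2)) :=
        mul_le_mul_left h2 _
    _ = _ := by
        unfold cloc
        ring

end Pool.Agent.N139.Fock
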