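import Mathlib

set_option autoImplicit false

open Set Metric Filter Topology MeasureTheory Real

namespace Pool.Agent.N139.Fock

/-- subharmonicity of `log ‖f‖` (from Jensen's formula in Mathlib) -/
theorem log_le {f : ℂ → ℂ} (hf : Differentiable ℂ f) {c : ℂ} (hc : f c ≠ 0) {R : ℝ} (hR : 0 < R) :
    Real.log ‖f c‖ ≤ circleAverage (Real.log ‖f ·‖) c R := by
  have han : AnalyticOnNhd ℂ f (closedBall c |R|) := fun x _ => hf.analyticAt x
  rw [AnalyticOnNhd.circleAverage_log_norm hR.ne' han hc]
  apply le_add_of_nonneg_left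
  apply finsum_nonneg
  intro u
  by_cases hu : u ∈ closedBall c |R|
  · apply mul_nonneg
    · have h1 : 0 ≤ MeromorphicOn.divisor f (closedBall c |R|) :=
        MeromorphicOn.AnalyticOnNhd.divisor_nonneg han
      exact_mod_cast h1 u
    · by_cases h : ‖c - u‖ = 0
      · simp [h]
      · apply Real.log_nonneg
        rw [mem_closedBall, dist_comm, dist_eq_norm, abs_of_pos hR] at hu
        have h0 : 0 < ‖c - u‖ := lt_of_le_of_ne (norm_nonneg _) (Ne.symm h)
        rw [← div_eq_mul_inv, le_div_iff₀ h0]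
        linarith
  · rw [Function.locallyFinsuppWithin.apply_eq_zero_of_notMem _ hu]
    simp

/-- `y ≥ e log y` for `y = x^p` -/
theorem rpow_ge_log {x p : ℝ} (hx : 0 ≤ x) :
    Real.exp 1 * p * Real.log x ≤ x ^ p := by
  rcases hx.eq_or_lt with h | h
  · rw [← h]; simp; positivity
  · have h1 : x ^ p = Real.exp (p * Real.log x) := by
      rw [Real.rpow_def_of_pos h, mul_comm]
    rw [h1]
    have h2 := Real.add_one_le_exp (p * Real.log x - 1)
    rw [Real.exp_sub] at h2
    have h3 : 0 < Real.exp 1 := Real.exp_pos 1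
    rw [le_div_iff₀ h3] at h2
    nlinarith

theorem norm_rpow_le_circleAverage_aux {f : ℂ → ℂ} (hf : Differentiable ℂ f) {c : ℂ} {p : ℝ}
    (hp : 0 < p) (hc : ‖f c‖ ^ p = Real.exp 1) {R : ℝ} (hR : 0 < R) :
    Real.exp 1 ≤ circleAverage (fun z => ‖f z‖ ^ p) c R := by
  have hc0 : f c ≠ 0 := by
    intro h
    rw [h, norm_zero, Real.zero_rpow hp.ne'] at hc
    exact (Real.exp_pos 1).ne hc
  have h1 := log_le hf hc0 hR
  have h2 : p * Real.log ‖f c‖ = 1 := by
    rw [← Real.log_rpow (norm_pos_iff.2 hc0), hc, Real.log_exp]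
  have han : AnalyticOnNhd ℂ f (sphere c |R|) := fun x _ => hf.analyticAt x
  have hi1 : CircleIntegrable (fun z => Real.log ‖f z‖) c R :=
    han.meromorphicOn.circleIntegrable_log_norm
  have hi2 : CircleIntegrable (fun z => ‖f z‖ ^ p) c R := by
    apply ContinuousOn.circleIntegrable hR.le
    apply Continuous.continuousOn
    exact (hf.continuous.norm).rpow_const (fun _ => Or.inr hp.le)
  have h3 : circleAverage (fun z => (Real.exp 1 * p) • Real.log ‖f z‖) c R
      ≤ circleAverage (fun z => ‖f z‖ ^ p) c R := by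
    apply circleAverage_mono
    · exact hi1.const_mul _
    · exact hi2
    · intro x _
      exact rpow_ge_log (norm_nonneg _)
  rw [circleAverage_fun_smul] at h3
  have h4 : (Real.exp 1 * p) • Real.log ‖f c‖ = Real.exp 1 := by
    rw [smul_eq_mul, mul_assoc, h2, mul_one]
  have h5 : (Real.exp 1 * p) • Real.log ‖f c‖ ≤ (Real.exp 1 * p) • circleAverage (fun z => Real.log ‖f z‖) c R := by
    rw [smul_eq_mul, smul_eq_mul]
    exact mul_le_mul_of_nonneg_left h1 (by positivity)
  linarith

theorem norm_rpow_le_circleAverage {f : ℂ → ℂ} (hf : Differentiable ℂ f) (c : ℂ) {p : ℝ}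
    (hp : 0 < p) {R : ℝ} (hR : 0 < R) :
    ‖f c‖ ^ p ≤ circleAverage (fun z => ‖f z‖ ^ p) c R := by
  by_cases hc : f c = 0
  · rw [hc, norm_zero, Real.zero_rpow hp.ne']
    apply circleAverage_nonneg_of_nonneg
    intro x _
    positivity
  · set K : ℝ := Real.exp (1 / p) / ‖f c‖ with hK
    have hn : 0 < ‖f c‖ := norm_pos_iff.2 hc
    have hKp : 0 < K := by positivity
    have h1 : ‖((K : ℂ) * f c)‖ ^ p = Real.exp 1 := by
      rw [norm_mul, Complex.norm_real, Real.norm_of_nonneg hKp.le, hK, div_mul_cancel₀ _ hn.ne',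
        ← Real.exp_mul]
      congr 1
      field_simp
    have h2 := norm_rpow_le_circleAverage_aux (f := fun z => (K : ℂ) * f z)
      (hf.const_mul _) hp h1 hR
    have h3 : (fun z => ‖(K : ℂ) * f z‖ ^ p) = fun z => (K ^ p) • ‖f z‖ ^ p := by
      funext z
      rw [norm_mul, Complex.norm_real, Real.norm_of_nonneg hKp.le,
        Real.mul_rpow hKp.le (norm_nonneg _), smul_eq_mul]
    rw [h3, circleAverage_fun_smul, ← h1, norm_mul, Complex.norm_real,
      Real.norm_of_nonneg hKp.le, Real.mul_rpow hKp.le (norm_nonneg _), smul_eq_mul] at h2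
    exact le_of_mul_le_mul_left h2 (by positivity)

/-- circle sub-mean value inequality as a lower integral -/
theorem lintegral_circle {f : ℂ → ℂ} (hf : Differentiable ℂ f) (c v : ℂ) {p : ℝ} (hp : 0 < p) :
    ENNReal.ofReal (2 * π) * ENNReal.ofReal (‖f c‖ ^ p) ≤
      ∫⁻ θ in Ioc 0 (2 * π), ENNReal.ofReal (‖f (c + circleMap 0 1 θ * v)‖ ^ p) := by
  have hg : Differentiable ℂ (fun u : ℂ => f (c + u * v)) :=
    hf.comp ((differentiable_const c).add (differentiable_id.mul_const v))
  have h := norm_rpow_le_circleAverage hg 0 hp one_pos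
  simp only [zero_mul, add_zero] at h
  rw [circleAverage, smul_eq_mul, intervalIntegral.integral_of_le (by positivity)] at h
  have hcont : Continuous (fun θ : ℝ => ‖f (c + circleMap 0 1 θ * v)‖ ^ p) :=
    ((hg.continuous.comp (continuous_circleMap 0 1)).norm).rpow_const (fun _ => Or.inr hp.le)
  rw [← ofReal_integral_eq_lintegral_ofReal]
  · rw [← ENNReal.ofReal_mul (by positivity)]
    apply ENNReal.ofReal_le_ofReal
    rw [inv_mul_eq_div, le_div_iff₀ (by positivity)] at h
    linarith
  · exact (hcont.integrableOn_Icc (a := 0) (b := 2 * π)).mono_set Ioc_subset_Icc_self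
  · exact Eventually.of_forall fun θ => by positivity

/-- rotation invariance of area on `ℂ` -/
theorem measurePreserving_rot (u : ℂ) (hu : ‖u‖ = 1) :
    MeasurePreserving (fun v : ℂ => u * v) volume volume := by
  have := (rotation ⟨u, by simpa [Submonoid.unitSphere, mem_sphere_zero_iff_norm] using hu⟩).measurePreserving
  convert! this using 1

/-- area sub-mean value inequality for `‖f‖ ^ p`, all `p > 0` -/
theorem area_submean {f : ℂ → ℂ} (hf : Differentiable ℂ f) (c : ℂ) {r : ℝ} {p : ℝ}
    (hp : 0 < p) :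
    ENNReal.ofReal (‖f c‖ ^ p) * volume (ball c r) ≤
      ∫⁻ w in ball c r, ENNReal.ofReal (‖f w‖ ^ p) := by
  have hgc : Continuous (fun w : ℂ => ENNReal.ofReal (‖f w‖ ^ p)) :=
    ENNReal.continuous_ofReal.comp
      ((hf.continuous.norm).rpow_const (fun _ => Or.inr hp.le))
  set g : ℂ → ENNReal := fun w => ENNReal.ofReal (‖f w‖ ^ p) with hg
  have hrot : ∀ θ : ℝ, ∫⁻ v in ball (0 : ℂ) r, g (c + circleMap 0 1 θ * v)
      = ∫⁻ w in ball c r, g w := by
    intro θ
    have hu : ‖circleMap 0 1 θ‖ = 1 := by simp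
    have h1 : MeasurePreserving (fun v : ℂ => c + circleMap 0 1 θ * v) volume volume :=
      (measurePreserving_add_left volume c).comp (measurePreserving_rot _ hu)
    have h2 := h1.setLIntegral_comp_preimage (measurableSet_ball (x := c) (ε := r)) hgc.measurable
    rw [← h2]
    congr 2
    ext v
    simp [hu]
  have hvol : volume (ball c r) = volume (ball (0 : ℂ) r) := by
    simp [Complex.volume_ball]
  have h3 : ENNReal.ofReal (2 * π) * (g c * volume (ball (0 : ℂ) r)) ≤
      ENNReal.ofReal (2 * π) * ∫⁻ w in ball c r, g w := by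
    calc ENNReal.ofReal (2 * π) * (g c * volume (ball (0 : ℂ) r))
        = ∫⁻ v in ball (0 : ℂ) r, ENNReal.ofReal (2 * π) * g c := by
          rw [lintegral_const, Measure.restrict_apply MeasurableSet.univ, univ_inter, mul_assoc]
      _ ≤ ∫⁻ v in ball (0 : ℂ) r, ∫⁻ θ in Ioc 0 (2 * π), g (c + circleMap 0 1 θ * v) := by
          apply lintegral_mono
          intro v
          exact lintegral_circle hf c v hp
      _ = ∫⁻ θ in Ioc 0 (2 * π), ∫⁻ v in ball (0 : ℂ) r, g (c + circleMap 0 1 θ * v) := by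
          apply lintegral_lintegral_swap
          apply Measurable.aemeasurable
          apply Continuous.measurable
          apply hgc.comp
          fun_prop
      _ = ∫⁻ θ in Ioc 0 (2 * π), ∫⁻ w in ball c r, g w := by
          simp_rw [hrot]
      _ = ENNReal.ofReal (2 * π) * ∫⁻ w in ball c r, g w := by
          rw [lintegral_const, Measure.restrict_apply MeasurableSet.univ, univ_inter,
            Real.volume_Ioc, sub_zero, mul_comm]
  rw [hvol]
  have h2pi : ENNReal.ofReal (2 * π) ≠ 0 := by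
    simp [Real.pi_pos]
  exact (ENNReal.mul_le_mul_iff_right h2pi ENNReal.ofReal_ne_top).1 h3

end Pool.Agent.N139.Fock
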