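import Pool.Agent.N139.Fock.Kern

set_option autoImplicit false

open Set Metric Filter Topology MeasureTheory

namespace Pool.Agent.N139.Fock

variable {n : ℕ}

theorem wt_succ (α : ℝ) (k : ℕ) (z : Fin n → ℂ) :
    wt α (k + 1) z = wt α k z / (1 + nsq z) := by
  unfold wt
  rw [pow_succ, div_div]

/-- Cauchy estimate along the slice through `z` -/
theorem forward_point {α : ℝ} (k : ℕ) {h : (Fin n → ℂ) → ℂ}
    (hh : Differentiable ℂ h) (z : Fin n → ℂ) :
    ∃ a : ℂ, ‖a - 1‖ * (1 + nsq z) ≤ 1 / 4 ∧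
      ‖radial h z‖ * wt α (k + 1) z ≤ 4 * (‖h (a • z)‖ * wt α k z) := by
  have hs := nsq_nonneg z
  set r : ℝ := 1 / (4 * (1 + nsq z)) with hr
  have hrpos : 0 < r := by positivity
  have hcont : Continuous (fun a : ℂ => ‖h (a • z)‖) := (differentiable_slice hh z).continuous.norm
  obtain ⟨a, ha, hmax⟩ := (isCompact_sphere (1 : ℂ) r).exists_isMaxOn
    (NormedSpace.sphere_nonempty.2 hrpos.le) hcont.continuousOn
  refine ⟨a, ?_, ?_⟩
  · rw [mem_sphere, dist_eq_norm] at ha
    rw [ha, hr]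
    apply le_of_eq
    field_simp
  · have h1 := Complex.norm_deriv_le_of_forall_mem_sphere_norm_le (c := 1) hrpos
      (differentiable_slice hh z).diffContOnCl (C := ‖h (a • z)‖) (fun b hb => hmax hb)
    rw [(hasDerivAt_slice hh z 1).deriv, one_smul, ← radial_eq] at h1
    have hw := wt_pos α k z
    rw [wt_succ]
    calc ‖radial h z‖ * (wt α k z / (1 + nsq z))
        ≤ (‖h (a • z)‖ / r) * (wt α k z / (1 + nsq z)) := by gcongr
      _ = 4 * (‖h (a • z)‖ * wt α k z) := by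
        rw [hr]; field_simp

theorem forward_lintegral {α p : ℝ} (hα : 0 < α) (hp : 0 < p) (k : ℕ) {h : (Fin n → ℂ) → ℂ}
    (hh : Differentiable ℂ h) (hfin : ∫⁻ z, Psi α p k h z < ⊤) :
    ∫⁻ z, Psi α p (k + 1) (radial h) z < ⊤ := by
  have key : ∀ z : Fin n → ℂ, Psi α p (k + 1) (radial h) z ≤
      (ENNReal.ofReal (4 ^ p) * cloc α p (1 / 2) k) * Tav (1 / 2) (Psi α p k h) z := by
    intro z
    obtain ⟨a, ha, hle⟩ := forward_point (α := α) k hh z
    have hs := nsq_nonneg z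
    have hw := wt_pos α k z
    have hw1 := wt_pos α (k + 1) z
    have h1 := local_le hα hp (κ := 1 / 2) (by norm_num) k hh (z := z) (by linarith)
      (a := a) (by linarith)
    calc Psi α p (k + 1) (radial h) z
        ≤ ENNReal.ofReal (4 ^ p) * ENNReal.ofReal ((‖h (a • z)‖ * wt α k z) ^ p) := by
          unfold Psi
          rw [← ENNReal.ofReal_mul (by positivity)]
          apply ENNReal.ofReal_le_ofReal
          rw [← Real.mul_rpow (by norm_num) (by positivity)]
          exact Real.rpow_le_rpow (by positivity) hle hp.le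
      _ ≤ ENNReal.ofReal (4 ^ p) * (cloc α p (1 / 2) k * Tav (1 / 2) (Psi α p k h) z) :=
          mul_le_mul_right h1 _
      _ = _ := by rw [mul_assoc]
  have hc : ENNReal.ofReal (4 ^ p) * cloc α p (1 / 2) k ≠ ⊤ := by
    unfold cloc
    finiteness
  calc ∫⁻ z, Psi α p (k + 1) (radial h) z
      ≤ ∫⁻ z, (ENNReal.ofReal (4 ^ p) * cloc α p (1 / 2) k) * Tav (1 / 2) (Psi α p k h) z :=
        lintegral_mono key
    _ = (ENNReal.ofReal (4 ^ p) * cloc α p (1 / 2) k) * ∫⁻ z, Tav (1 / 2) (Psi α p k h) z :=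
        lintegral_const_mul' _ _ hc
    _ ≤ (ENNReal.ofReal (4 ^ p) * cloc α p (1 / 2) k) *
        (ENNReal.ofReal (4 ^ n) * ENNReal.ofReal (81 * (1 / 2) ^ 2 * Real.pi) *
          ∫⁻ z, Psi α p k h z) :=
        mul_le_mul_right (lintegral_Tav_le (by norm_num) (measurable_Psi hp k hh.continuous)) _
    _ < ⊤ := by
        apply ENNReal.mul_lt_top hc.lt_top
        exact ENNReal.mul_lt_top (by finiteness) hfin

/-- dilation factor for the `j`-th shell -/
noncomputable def lam (j : ℕ) : ℝ := Real.sqrt (((j : ℝ) - 1) / j)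

theorem lam_facts {j : ℕ} (hj : 2 ≤ j) :
    lam j ^ 2 = 1 - 1 / (j : ℝ) ∧ 1 / 2 ≤ lam j ^ 2 ∧ 0 < lam j ∧ lam j ≤ 1 := by
  have hj' : (2 : ℝ) ≤ j := by exact_mod_cast hj
  have h0 : 0 ≤ ((j : ℝ) - 1) / j := by
    apply div_nonneg <;> linarith
  have h1 : lam j ^ 2 = 1 - 1 / (j : ℝ) := by
    unfold lam
    rw [Real.sq_sqrt h0]
    field_simp
  have h2 : 1 / (j : ℝ) ≤ 1 / 2 := by
    apply one_div_le_one_div_of_le <;> linarith
  have h3 : 0 ≤ lam j := Real.sqrt_nonneg _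
  have h4 : 0 < 1 / (j : ℝ) := by positivity
  refine ⟨h1, by linarith, ?_, ?_⟩
  · rcases h3.eq_or_lt with h | h
    · rw [← h] at h1; linarith
    · exact h
  · by_contra hcon
    push Not at hcon
    nlinarith

/-- pointwise estimate on the `j`-th shell -/
theorem shell_point {α σ : ℝ} (hα : 0 < α) (hσ : 1 ≤ σ) (k : ℕ) {h : (Fin n → ℂ) → ℂ}
    (hh : Differentiable ℂ h) {j : ℕ} (hj : 2 ≤ j) {z : Fin n → ℂ} (hz1 : σ * j ≤ nsq z)
    (hz2 : nsq z < σ * (j + 1)) :
    ∃ a : ℂ, ‖a - 1‖ * (1 + nsq z) ≤ 1 + 2 * σ ∧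
      ‖h z‖ * wt α k z ≤
        Real.exp (-(α * σ / 2)) * (‖h ((lam j : ℂ) • z)‖ * wt α k ((lam j : ℂ) • z)) +
        2 * (1 + 2 * σ) * (‖radial h (a • z)‖ * wt α (k + 1) z) := by
  obtain ⟨hl1, hl2, hl3, hl4⟩ := lam_facts hj
  have hj' : (2 : ℝ) ≤ j := by exact_mod_cast hj
  have hjpos : (0 : ℝ) < j := by linarith
  have hs := nsq_nonneg z
  have hRd := differentiable_radial hh
  have hcont : Continuous (fun t : ℝ => ‖radial h ((t : ℂ) • z)‖) := by
    have := (differentiable_slice hRd z).continuous.norm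
    exact this.comp Complex.continuous_ofReal
  obtain ⟨t0, ht0, hmax⟩ := (isCompact_Icc (a := lam j) (b := 1)).exists_isMaxOn
    (nonempty_Icc.2 hl4) hcont.continuousOn
  have hgr : (1 + nsq z) ≤ j * (1 + 2 * σ) := by nlinarith
  refine ⟨(t0 : ℂ), ?_, ?_⟩
  · have h1 : ‖(t0 : ℂ) - 1‖ = 1 - t0 := by
      rw [← Complex.ofReal_one, ← Complex.ofReal_sub, Complex.norm_real, Real.norm_eq_abs,
        abs_of_nonpos (by linarith [ht0.2])]
      ring
    rw [h1]
    have h2 : 1 - t0 ≤ 1 / j := by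
      have h3 : lam j ^ 2 ≤ lam j := by nlinarith
      linarith [ht0.1]
    have h4 : 0 ≤ 1 - t0 := by linarith [ht0.2]
    calc (1 - t0) * (1 + nsq z) ≤ (1 / j) * (j * (1 + 2 * σ)) := by gcongr
      _ = 1 + 2 * σ := by field_simp
  · set M := ‖radial h ((t0 : ℂ) • z)‖ with hM
    have hM0 : 0 ≤ M := norm_nonneg _
    have hder : ∀ t ∈ Icc (lam j) 1, HasDerivWithinAt (fun t : ℝ => h ((t : ℂ) • z))
        (fderiv ℂ h ((t : ℂ) • z) z) (Icc (lam j) 1) t := by
      intro t _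
      exact ((hasDerivAt_slice hh z (t : ℂ)).comp_ofReal).hasDerivWithinAt
    have hbd : ∀ t ∈ Icc (lam j) 1, ‖fderiv ℂ h ((t : ℂ) • z) z‖ ≤ M / lam j := by
      intro t ht
      have h1 : ‖radial h ((t : ℂ) • z)‖ ≤ M := hmax ht
      rw [radial_smul, norm_mul, Complex.norm_real, Real.norm_of_nonneg (by linarith [ht.1])] at h1
      rw [le_div_iff₀ hl3]
      calc ‖fderiv ℂ h ((t : ℂ) • z) z‖ * lam j ≤ ‖fderiv ℂ h ((t : ℂ) • z) z‖ * t := by
            have := ht.1
            gcongr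
        _ = t * ‖fderiv ℂ h ((t : ℂ) • z) z‖ := mul_comm _ _
        _ ≤ M := h1
    have hmv := (convex_Icc (lam j) 1).norm_image_sub_le_of_norm_hasDerivWithin_le hder hbd
      (left_mem_Icc.2 hl4) (right_mem_Icc.2 hl4)
    simp only [Complex.ofReal_one, one_smul] at hmv
    rw [Real.norm_of_nonneg (by linarith : (0 : ℝ) ≤ 1 - lam j)] at hmv
    have h5 : M / lam j * (1 - lam j) ≤ M * (2 / j) := by
      rw [div_mul_eq_mul_div, mul_div_assoc]
      apply mul_le_mul_of_nonneg_left _ hM0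
      rw [div_le_iff₀ hl3]
      have h6 : (2 : ℝ) / j = 2 * (1 - lam j ^ 2) := by rw [hl1]; ring
      rw [h6]
      nlinarith
    have h7 : ‖h z‖ ≤ ‖h ((lam j : ℂ) • z)‖ + M * (2 / j) := by
      have := norm_le_norm_add_norm_sub' (h z) (h ((lam j : ℂ) • z))
      linarith
    have hw := wt_pos α k z
    have hw1 := wt_pos α (k + 1) z
    have hnl : nsq ((lam j : ℂ) • z) = nsq z - nsq z / j := by
      rw [nsq_smul, Complex.norm_real, Real.norm_of_nonneg hl3.le, hl1]
      ring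
    have hdrop : σ ≤ nsq z / j := by
      rw [le_div_iff₀ hjpos]; linarith
    have h8 : wt α k z ≤ Real.exp (-(α * σ / 2)) * wt α k ((lam j : ℂ) • z) := by
      unfold wt
      have hn2 := nsq_nonneg ((lam j : ℂ) • z)
      rw [mul_div_assoc', div_le_div_iff₀ (by positivity) (by positivity)]
      have h9 : Real.exp (-(α * nsq z / 2)) ≤
          Real.exp (-(α * σ / 2)) * Real.exp (-(α * nsq ((lam j : ℂ) • z) / 2)) := by
        rw [← Real.exp_add]
        apply Real.exp_le_exp.2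
        rw [hnl]
        nlinarith
      have h10 : (1 + nsq ((lam j : ℂ) • z)) ^ k ≤ (1 + nsq z) ^ k := by
        apply pow_le_pow_left₀ (by positivity)
        rw [hnl]
        linarith
      exact mul_le_mul h9 h10 (by positivity) (by positivity)
    have h11 : (2 / j) * wt α k z ≤ 2 * (1 + 2 * σ) * wt α (k + 1) z := by
      rw [wt_succ]
      have h12 : wt α k z = (1 + nsq z) * (wt α k z / (1 + nsq z)) := by field_simp
      have hq : 0 < wt α k z / (1 + nsq z) := by positivity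
      calc (2 / j) * wt α k z = (2 / j) * ((1 + nsq z) * (wt α k z / (1 + nsq z))) := by
            rw [← h12]
        _ ≤ (2 / j) * ((j * (1 + 2 * σ)) * (wt α k z / (1 + nsq z))) := by gcongr
        _ = 2 * (1 + 2 * σ) * (wt α k z / (1 + nsq z)) := by field_simp
    calc ‖h z‖ * wt α k z ≤ (‖h ((lam j : ℂ) • z)‖ + M * (2 / j)) * wt α k z := by gcongr
      _ = ‖h ((lam j : ℂ) • z)‖ * wt α k z + M * ((2 / j) * wt α k z) := by ring
      _ ≤ ‖h ((lam j : ℂ) • z)‖ * (Real.exp (-(α * σ / 2)) * wt α k ((lam j : ℂ) • z)) +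
          M * (2 * (1 + 2 * σ) * wt α (k + 1) z) := by gcongr
      _ = _ := by ring

end Pool.Agent.N139.Fock
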